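import Pool.Agent.helper38.OV.Spec
import Pool.Agent.helper34.OP.NHR

/-!
# Project OV, row NHG
-/

set_option autoImplicit false

namespace Pool.Agent.OV

open Finset Real Pool.Agent.AT Pool.Agent.helper85.FC Pool.Agent.OM

theorem NHG_BG (H A B : ℕ) (v : ℤ) : 0 ≤ BG H A B v ∧ BG H A B v ≤ 1 := by
  unfold BG
  split_ifs <;> norm_num

theorem NHG_WG (H a b : ℕ) (z : ℤ) (s s' m : ℕ) (v : ℤ) : 0 ≤ WG H a b z s s' m v ∧ WG H a b z s s' m v ≤ 1 :=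
  NHG_BG _ _ _ _

theorem NHG_PG (M : ℕ) (T : ℕ → ℕ → ℕ → ℕ) (w : ℕ → ℕ → ℕ → ℤ → ℝ) (hw : ∀ s s' m v, 0 ≤ w s s' m v ∧ w s s' m v ≤ 1)
    (s s' m : ℕ) (v : ℤ) : 0 ≤ PG M T w s s' m v ∧ PG M T w s s' m v ≤ 1 := by
  unfold PG sm
  constructor
  · exact div_nonneg (Finset.sum_nonneg fun τ _ => (hw _ _ _ _).1) (Nat.cast_nonneg _)
  · refine div_le_one_of_le₀ ?_ (Nat.cast_nonneg _)
    calc ∑ τ ∈ range (T s s' m), w s s' m (v + M * τ) ≤ ∑ _τ ∈ range (T s s' m), (1 : ℝ) :=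
          Finset.sum_le_sum fun τ _ => (hw _ _ _ _).2
      _ = T s s' m := by simp

theorem NHG_kg (a b : ℕ) (w : ℕ → ℕ → ℕ → ℤ → ℝ) (hw : ∀ s s' m v, 0 ≤ w s s' m v ∧ w s s' m v ≤ 1) (p p' : (ℕ × ℕ) × ℕ) :
    0 ≤ kg a b w p p' ∧ kg a b w p p' ≤ 1 := by
  unfold kg
  split_ifs
  · exact hw _ _ _ _
  · exact hw _ _ _ _
  · norm_num

/-- the quotients -/
theorem NHG_q {a b s s' : ℕ} (ha : 1 ≤ a) (hb : 1 ≤ b) (hs : 1 ≤ s) (hs' : 1 ≤ s') (m : ℕ) :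
    1 ≤ na a b s s' m ∧ 1 ≤ nb a b s s' m ∧ na a b s s' m * (s' * b ^ m) = nb a b s s' m * (s * a ^ m) := by
  have h1 : 0 < s * a ^ m := Nat.mul_pos hs (Nat.pow_pos ha)
  have h2 : 0 < s' * b ^ m := Nat.mul_pos hs' (Nat.pow_pos hb)
  have hg : 0 < Nat.gcd (s * a ^ m) (s' * b ^ m) := Nat.gcd_pos_of_pos_left _ h1
  have h3 : na a b s s' m * Nat.gcd (s * a ^ m) (s' * b ^ m) = s * a ^ m := Nat.div_mul_cancel (Nat.gcd_dvd_left _ _)
  have h4 : nb a b s s' m * Nat.gcd (s * a ^ m) (s' * b ^ m) = s' * b ^ m := Nat.div_mul_cancel (Nat.gcd_dvd_right _ _)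
  refine ⟨?_, ?_, ?_⟩
  · exact Nat.div_pos (Nat.gcd_le_left _ h1) hg
  · exact Nat.div_pos (Nat.gcd_le_right _ h2) hg
  · generalize na a b s s' m = A at h3 ⊢
    generalize nb a b s s' m = B at h4 ⊢
    generalize Nat.gcd (s * a ^ m) (s' * b ^ m) = g at h3 h4 ⊢
    rw [← h3, ← h4]
    ring

/-- the ratio over the reals -/
theorem NHG_r {a b s s' : ℕ} (ha : 1 ≤ a) (hb : 1 ≤ b) (hs : 1 ≤ s) (hs' : 1 ≤ s') (m : ℕ) :
    (na a b s s' m : ℝ) = nb a b s s' m * (((s : ℝ) / s') * ((a : ℝ) / b) ^ m) := by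
  obtain ⟨-, -, h⟩ := NHG_q ha hb hs hs' m
  have h1 : (na a b s s' m : ℝ) * (s' * (b : ℝ) ^ m) = nb a b s s' m * (s * (a : ℝ) ^ m) := by exact_mod_cast h
  have h2 : (0 : ℝ) < s' := by exact_mod_cast hs'
  have h3 : (0 : ℝ) < (b : ℝ) ^ m := by
    have : (0 : ℝ) < b := by exact_mod_cast hb
    positivity
  rw [div_pow]
  field_simp
  linarith

/-- the ratios decrease fast -/
theorem NHG_s {a b s s' K : ℕ} {κ R : ℝ} (ha : 1 ≤ a) (hb : 1 ≤ b) (hs : 1 ≤ s) (hs' : 1 ≤ s') (hK : 1 ≤ K) (hsK : s ≤ K * s')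
    (hR : 1 ≤ R) (hκ : 0 < κ) (hκ1 : κ ≤ 1) (hab : (a : ℝ) ≤ κ ^ 2 / (64 * R * K) * b) :
    (∀ m, 1 ≤ m → 64 * R * na a b s s' m ≤ κ ^ 2 * nb a b s s' m) ∧
    (∀ m, 64 * R * (na a b s s' (m + 1) * nb a b s s' m) ≤ κ ^ 2 * (na a b s s' m * nb a b s s' (m + 1))) := by
  have hb0 : (0 : ℝ) < b := by exact_mod_cast hb
  have ha0 : (0 : ℝ) < a := by exact_mod_cast ha
  have hs0 : (0 : ℝ) < s := by exact_mod_cast hs
  have hs0' : (0 : ℝ) < s' := by exact_mod_cast hs'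
  have hK1 : (1 : ℝ) ≤ K := by exact_mod_cast hK
  have hsK' : (s : ℝ) ≤ K * s' := by exact_mod_cast hsK
  set x : ℝ := (a : ℝ) / b with hx
  set y : ℝ := (s : ℝ) / s' with hy
  have hx0 : 0 < x := div_pos ha0 hb0
  have hy0 : 0 < y := div_pos hs0 hs0'
  have hyK : y ≤ K := by
    rw [hy, div_le_iff₀ hs0']
    exact hsK'
  have hxl : x * (64 * R * K) ≤ κ ^ 2 := by
    have h1 : x ≤ κ ^ 2 / (64 * R * K) := by
      rw [hx, div_le_iff₀ hb0]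
      exact hab
    rw [le_div_iff₀ (by positivity)] at h1
    exact h1
  have hR0 : 0 < R := by linarith
  have hκ2 : κ ^ 2 ≤ 1 := pow_le_one₀ hκ.le hκ1
  have hx1 : x ≤ 1 := by
    have h2 : (1 : ℝ) ≤ 64 * R * K := by nlinarith
    nlinarith
  have hxR : 64 * R * x ≤ κ ^ 2 := by
    have h2 : 64 * R * x ≤ x * (64 * R * K) := by
      have : 0 ≤ 64 * R * x := by positivity
      nlinarith
    linarith
  refine ⟨fun m hm => ?_, fun m => ?_⟩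
  · rw [NHG_r ha hb hs hs' m]
    have hN : (0 : ℝ) ≤ nb a b s s' m := Nat.cast_nonneg _
    have h1 : x ^ m ≤ x := by
      calc x ^ m ≤ x ^ 1 := pow_le_pow_of_le_one hx0.le hx1 hm
        _ = x := pow_one x
    have h2 : 64 * R * (y * x ^ m) ≤ κ ^ 2 := by
      calc 64 * R * (y * x ^ m) ≤ 64 * R * (K * x) := by
            apply mul_le_mul_of_nonneg_left _ (by positivity)
            exact mul_le_mul hyK h1 (by positivity) (by linarith)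
        _ = x * (64 * R * K) := by ring
        _ ≤ κ ^ 2 := hxl
    calc 64 * R * (nb a b s s' m * (y * x ^ m)) = nb a b s s' m * (64 * R * (y * x ^ m)) := by ring
      _ ≤ nb a b s s' m * κ ^ 2 := mul_le_mul_of_nonneg_left h2 hN
      _ = κ ^ 2 * nb a b s s' m := by ring
  · rw [NHG_r ha hb hs hs' (m + 1), NHG_r ha hb hs hs' m]
    have hN : (0 : ℝ) ≤ nb a b s s' m := Nat.cast_nonneg _
    have hN' : (0 : ℝ) ≤ nb a b s s' (m + 1) := Nat.cast_nonneg _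
    have h3 : 0 ≤ nb a b s s' (m + 1) * (nb a b s s' m : ℝ) * (y * x ^ m) := by positivity
    calc 64 * R * (nb a b s s' (m + 1) * (y * x ^ (m + 1)) * nb a b s s' m)
        = (nb a b s s' (m + 1) * (nb a b s s' m : ℝ) * (y * x ^ m)) * (64 * R * x) := by ring
      _ ≤ (nb a b s s' (m + 1) * (nb a b s s' m : ℝ) * (y * x ^ m)) * κ ^ 2 := mul_le_mul_of_nonneg_left hxR h3
      _ = κ ^ 2 * (nb a b s s' m * (y * x ^ m) * nb a b s s' (m + 1)) := by ring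

/-- the determinants are not zero -/
theorem NHG_d {a b s s' : ℕ} (ha : 1 ≤ a) (hb : 1 ≤ b) (hs : 1 ≤ s) (hs' : 1 ≤ s') (hab : a < b) {m m' : ℕ} (hm : m < m') :
    ((na a b s s' m : ℤ) * nb a b s s' m' - na a b s s' m' * nb a b s s' m) ≠ 0 := by
  intro h
  obtain ⟨a1, b1, e1⟩ := NHG_q ha hb hs hs' m
  obtain ⟨a2, b2, e2⟩ := NHG_q ha hb hs hs' m'
  have hb0 : (0 : ℝ) < b := by exact_mod_cast hb
  have ha0 : (0 : ℝ) < a := by exact_mod_cast ha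
  have hs0 : (0 : ℝ) < s := by exact_mod_cast hs
  have hs0' : (0 : ℝ) < s' := by exact_mod_cast hs'
  have h1 : (na a b s s' m : ℝ) * nb a b s s' m' - na a b s s' m' * nb a b s s' m = 0 := by exact_mod_cast h
  rw [NHG_r ha hb hs hs' m, NHG_r ha hb hs hs' m'] at h1
  have hn1 : (0 : ℝ) < nb a b s s' m := by exact_mod_cast b1
  have hn2 : (0 : ℝ) < nb a b s s' m' := by exact_mod_cast b2
  have hx1 : (a : ℝ) / b < 1 := by
    rw [div_lt_one hb0]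
    exact_mod_cast hab
  have hx0 : 0 < (a : ℝ) / b := div_pos ha0 hb0
  have h2 : ((a : ℝ) / b) ^ m' < ((a : ℝ) / b) ^ m := pow_lt_pow_right_of_lt_one₀ hx0 hx1 hm
  have h3 : (nb a b s s' m * nb a b s s' m' * ((s : ℝ) / s')) * (((a : ℝ) / b) ^ m - ((a : ℝ) / b) ^ m') = 0 := by
    linarith
  have h4 : 0 < (nb a b s s' m * nb a b s s' m' * ((s : ℝ) / s')) := by positivity
  have h5 : 0 < ((a : ℝ) / b) ^ m - ((a : ℝ) / b) ^ m' := by linarith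
  exact (mul_pos h4 h5).ne' h3

/-- the numbers `M1` and `M` -/
def NHG_M1 (a b L : ℕ) (S : Finset ℕ) : ℕ :=
  ∏ s ∈ S, ∏ s' ∈ S, ∏ m ∈ Ico 1 L, ∏ m' ∈ Ico 1 L,
    if m < m' then ((na a b s s' m : ℤ) * nb a b s s' m' - na a b s s' m' * nb a b s s' m).natAbs else 1

/-- the product of the denominators -/
def NHG_P (a b L : ℕ) (S : Finset ℕ) : ℕ := ∏ s ∈ S, ∏ s' ∈ S, ∏ m ∈ Ico 1 L, nb a b s s' m

theorem NHG_M1_pos {a b L : ℕ} {S : Finset ℕ} (ha : 1 ≤ a) (hab : a < b) (hS : ∀ s ∈ S, 1 ≤ s) : 0 < NHG_M1 a b L S := by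
  unfold NHG_M1
  refine Finset.prod_pos fun s hs => Finset.prod_pos fun s' hs' => Finset.prod_pos fun m _ => Finset.prod_pos fun m' _ => ?_
  split_ifs with h
  · exact Int.natAbs_pos.2 (NHG_d ha (by omega) (hS s hs) (hS s' hs') hab h)
  · exact Nat.one_pos

theorem NHG_P_pos {a b L : ℕ} {S : Finset ℕ} (ha : 1 ≤ a) (hab : a < b) (hS : ∀ s ∈ S, 1 ≤ s) : 0 < NHG_P a b L S := by
  unfold NHG_P
  exact Finset.prod_pos fun s hs => Finset.prod_pos fun s' hs' => Finset.prod_pos fun m _ =>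
    (NHG_q ha (by omega) (hS s hs) (hS s' hs') m).2.1

theorem NHG_M1_dvd (a b L : ℕ) (S : Finset ℕ) {s s' : ℕ} (hs : s ∈ S) (hs' : s' ∈ S) {m m' : ℕ} (hm : m ∈ Ico 1 L)
    (hm' : m' ∈ Ico 1 L) (h : m < m') :
    ((na a b s s' m : ℤ) * nb a b s s' m' - na a b s s' m' * nb a b s s' m) ∣ (NHG_M1 a b L S : ℤ) := by
  rw [← Int.natAbs_dvd, Int.natCast_dvd_natCast]
  have e1 := Finset.dvd_prod_of_mem (fun m' => if m < m' then ((na a b s s' m : ℤ) * nb a b s s' m' -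
    na a b s s' m' * nb a b s s' m).natAbs else 1) hm'
  simp only [if_pos h] at e1
  have e2 := Finset.dvd_prod_of_mem (fun m => ∏ m' ∈ Ico 1 L, if m < m' then ((na a b s s' m : ℤ) * nb a b s s' m' -
    na a b s s' m' * nb a b s s' m).natAbs else 1) hm
  have e3 := Finset.dvd_prod_of_mem (fun s' => ∏ m ∈ Ico 1 L, ∏ m' ∈ Ico 1 L, if m < m' then ((na a b s s' m : ℤ) * nb a b s s' m' -
    na a b s s' m' * nb a b s s' m).natAbs else 1) hs'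
  have e4 := Finset.dvd_prod_of_mem (fun s => ∏ s' ∈ S, ∏ m ∈ Ico 1 L, ∏ m' ∈ Ico 1 L, if m < m' then ((na a b s s' m : ℤ) * nb a b s s' m' -
    na a b s s' m' * nb a b s s' m).natAbs else 1) hs
  exact e1.trans (e2.trans (e3.trans e4))

theorem NHG_P_dvd (a b L : ℕ) (S : Finset ℕ) {s s' : ℕ} (hs : s ∈ S) (hs' : s' ∈ S) {m : ℕ} (hm : m ∈ Ico 1 L) :
    nb a b s s' m ∣ NHG_P a b L S := by
  have e1 := Finset.dvd_prod_of_mem (fun m => nb a b s s' m) hm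
  have e2 := Finset.dvd_prod_of_mem (fun s' => ∏ m ∈ Ico 1 L, nb a b s s' m) hs'
  have e3 := Finset.dvd_prod_of_mem (fun s => ∏ s' ∈ S, ∏ m ∈ Ico 1 L, nb a b s s' m) hs
  exact e1.trans (e2.trans e3)

/-- the lengths of the progressions -/
theorem NHG_T (A B N : ℕ) (κ : ℝ) (hA : 1 ≤ A) (hκ : 0 < κ) (hκ1 : κ ≤ 1) (hAB : (A : ℝ) ≤ κ ^ 2 * B)
    (hN2 : 2 ≤ N) (hN : 2 * B ≤ N) :
    1 ≤ ⌊(A : ℝ) * N / κ⌋₊ ∧ κ * (⌊(A : ℝ) * N / κ⌋₊ : ℝ) ≤ (A : ℝ) * N ∧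
      (A : ℝ) * N ≤ 2 * κ * (⌊(A : ℝ) * N / κ⌋₊ : ℝ) ∧ (B : ℝ) ≤ κ * (⌊(A : ℝ) * N / κ⌋₊ : ℝ) ∧
      (⌊(A : ℝ) * N / κ⌋₊ : ℝ) ≤ κ * ((B : ℝ) * N) := by
  set x : ℝ := (A : ℝ) * N / κ with hx
  have hA' : (1 : ℝ) ≤ A := by exact_mod_cast hA
  have hN' : 2 * (B : ℝ) ≤ N := by exact_mod_cast hN
  have hN2' : (2 : ℝ) ≤ N := by exact_mod_cast hN2
  have hxκ : κ * x = (A : ℝ) * N := by
    rw [hx]
    field_simp
  have hx0 : 0 ≤ x := by positivity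
  have haN : (N : ℝ) ≤ (A : ℝ) * N := by nlinarith
  have hx2 : 2 ≤ x := by
    have h1 : (A : ℝ) * N ≤ x := by
      rw [← hxκ]
      nlinarith
    linarith
  have hf1 : (⌊x⌋₊ : ℝ) ≤ x := Nat.floor_le hx0
  have hf2 : x < ⌊x⌋₊ + 1 := Nat.lt_floor_add_one x
  have hf3 : x ≤ 2 * (⌊x⌋₊ : ℝ) := by linarith
  have hf4 : 1 ≤ ⌊x⌋₊ := Nat.le_floor (by norm_num; linarith)
  have h3 : (A : ℝ) * N ≤ 2 * κ * (⌊x⌋₊ : ℝ) := by
    rw [← hxκ]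
    nlinarith
  refine ⟨hf4, ?_, h3, ?_, ?_⟩
  · rw [← hxκ]
    exact mul_le_mul_of_nonneg_left hf1 hκ.le
  · nlinarith
  · have h6 : κ * x ≤ κ * (κ * ((B : ℝ) * N)) := by
      rw [hxκ]
      calc (A : ℝ) * N ≤ κ ^ 2 * (B : ℝ) * N := mul_le_mul_of_nonneg_right hAB (by linarith)
        _ = κ * (κ * ((B : ℝ) * N)) := by ring
    have h7 : x ≤ κ * ((B : ℝ) * N) := le_of_mul_le_mul_left h6 hκ
    linarith

open Classical in
theorem NHG_le1 (hK4G : K4G_stmt) (hCUG : CUG_stmt) (hCNT : OM.CNT_stmt) (hLOG : LOG_stmt) (hAVH : AVH_stmt)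
    (hKLG : KLG_stmt) (hQP : QPc) (ε : ℝ) (hε : 0 < ε) (hε1 : ε ≤ 1) (K : ℕ) (hK : 1 ≤ K) :
    ∃ (L : ℕ) (δ lam : ℝ), 0 < δ ∧ 0 < lam ∧ ∀ a b : ℕ, 1 ≤ a → Nat.Coprime a b →
    (a : ℝ) ≤ lam * b → ∀ S : Finset ℕ, S.Nonempty → (∀ s ∈ S, 1 ≤ s) → (∀ s ∈ S, ∀ s' ∈ S, s ≤ K * s') →
    ∀ H : ℕ, 1 ≤ H → 6 ∣ H → a ∣ H → b ∣ H → (∀ s ∈ S, s ∣ H) → ∃ M N₀ : ℕ, 1 ≤ M ∧ ∀ N : ℕ, N₀ ≤ N → ∀ z : ℤ,
    δ * (#S : ℝ) ^ 2 ≤ #{t ∈ S ×ˢ S | ∃ m ∈ Ico 1 L, ∃ r < M,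
      ∑ v ∈ range (nb a b t.1 t.2 m * (M * N)) with v % M = r, WG H a b z t.1 t.2 m v < ε * ((nb a b t.1 t.2 m : ℝ) * N)} := by
  obtain ⟨C, δ, hC, hδ, hS⟩ := hK4G hQP
  obtain ⟨L, hL1, -, hLs⟩ := OP.NHR_L ε hε hε1
  have he7 : 0 < ε ^ 7 := by positivity
  have he71 : ε ^ 7 ≤ ε := by
    calc ε ^ 7 ≤ ε ^ 1 := pow_le_pow_of_le_one hε.le hε1 (by norm_num)
      _ = ε := pow_one ε
  have he72 : ε ^ 7 ≤ ε ^ 2 := pow_le_pow_of_le_one hε.le hε1 (by norm_num)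
  set κ : ℝ := ε ^ 7 / 2 ^ 26 with hκdef
  have hκ : 0 < κ := by positivity
  have hκ1 : κ ≤ 1 := by
    rw [hκdef, div_le_one (by norm_num)]
    linarith
  have hκ5 : ε / 2 ≤ ε - 5 * κ := by
    rw [hκdef]
    linarith
  have hLr : (1 : ℝ) ≤ L := by exact_mod_cast hL1
  have hsL : 1 ≤ √(L : ℝ) := by
    rw [Real.one_le_sqrt]
    exact hLr
  have hsL0 : 0 < √(L : ℝ) := by linarith
  have hL0 : 0 ≤ 1 / (L : ℝ) := by positivity
  have hL252 : 0 ≤ 252 / √(L : ℝ) := by positivity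
  have hKr : (1 : ℝ) ≤ K := by exact_mod_cast hK
  refine ⟨L, κ, κ ^ 2 / (64 * √(L : ℝ) * K), hκ, by positivity, ?_⟩
  intro a b ha hcop hab S hSn hS1 hSK H hH1 hH6 hHa hHb hHs
  have ha' : (1 : ℝ) ≤ a := by exact_mod_cast ha
  have hb0 : (0 : ℝ) < b := by
    by_contra h
    have h1 : (b : ℝ) ≤ 0 := not_lt.1 h
    have h2 : κ ^ 2 / (64 * √(L : ℝ) * K) * b ≤ 0 := mul_nonpos_of_nonneg_of_nonpos (by positivity) h1
    linarith
  have hb : 1 ≤ b := by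
    have : 0 < b := by exact_mod_cast hb0
    omega
  have hκsq : κ ^ 2 ≤ 1 := pow_le_one₀ hκ.le hκ1
  have hKab : (K : ℝ) * a < b := by
    have h1 : (64 * √(L : ℝ) * K) * a ≤ (64 * √(L : ℝ) * K) * (κ ^ 2 / (64 * √(L : ℝ) * K) * b) :=
      mul_le_mul_of_nonneg_left hab (by positivity)
    have h2 : (64 * √(L : ℝ) * K) * (κ ^ 2 / (64 * √(L : ℝ) * K) * b) = κ ^ 2 * b := by
      field_simp
    rw [h2] at h1
    have h3 : κ ^ 2 * b ≤ b := by nlinarith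
    have h4 : 0 < (K : ℝ) * a := by positivity
    have h5 : 2 * ((K : ℝ) * a) ≤ (64 * √(L : ℝ) * K) * a := by
      have : (64 * √(L : ℝ) * K) * a = 64 * √(L : ℝ) * ((K : ℝ) * a) := by ring
      rw [this]
      nlinarith
    linarith
  have hablt : a < b := by
    have h1 : (a : ℝ) < b := by nlinarith
    exact_mod_cast h1
  have hsab : ∀ s ∈ S, ∀ s' ∈ S, s * a < s' * b := by
    intro s hs s' hs'
    have h1 : (s : ℝ) ≤ K * s' := by exact_mod_cast hSK s hs s' hs'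
    have h2 : (1 : ℝ) ≤ s' := by exact_mod_cast hS1 s' hs'
    have h3 : (s : ℝ) * a < s' * b := by
      calc (s : ℝ) * a ≤ K * s' * a := mul_le_mul_of_nonneg_right h1 (by linarith)
        _ = s' * (K * a) := by ring
        _ < s' * b := mul_lt_mul_of_pos_left hKab (by linarith)
    exact_mod_cast h3
  have hM1p := NHG_M1_pos (L := L) ha hablt hS1
  have hPp := NHG_P_pos (L := L) ha hablt hS1
  set M1 : ℕ := NHG_M1 a b L S with hM1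
  set M : ℕ := NHG_P a b L S * M1 with hM
  have hMp : 1 ≤ M := Nat.mul_pos hPp hM1p
  have hrat := fun s hs s' hs' => NHG_s (R := √(L : ℝ)) ha hb (hS1 s hs) (hS1 s' hs') hK (hSK s hs s' hs') hsL hκ hκ1 hab
  have hSq : ∀ s ∈ S, ∀ s' ∈ S, Sq L κ (na a b s s') (nb a b s s') M1 := by
    intro s hs s' hs'
    refine ⟨hL1, hκ, hκ1, hM1p, fun m hm => ⟨(NHG_q ha hb (hS1 s hs) (hS1 s' hs') m).1, ?_⟩, fun m _ _ => ?_, fun m hm m' hm' h => ?_⟩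
    · exact (hrat s hs s' hs').1 m (Finset.mem_Ico.1 hm).1
    · exact (hrat s hs s' hs').2 m
    · exact NHG_M1_dvd a b L S hs hs' hm hm' h
  have hnbM1 : ∀ s ∈ S, ∀ s' ∈ S, ∀ m ∈ Ico 1 L, nb a b s s' m * M1 ∣ M := by
    intro s hs s' hs' m hm
    exact Nat.mul_dvd_mul_right (NHG_P_dvd a b L S hs hs' hm) M1
  have hnbM : ∀ s ∈ S, ∀ s' ∈ S, ∀ m ∈ Ico 1 L, nb a b s s' m ≤ M := by
    intro s hs s' hs' m hm
    exact (Nat.le_mul_of_pos_right _ hM1p).trans (Nat.le_of_dvd hMp (hnbM1 s hs s' hs' m hm))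
  have hAB : ∀ s ∈ S, ∀ s' ∈ S, ∀ m ∈ Ico 1 L, (na a b s s' m : ℝ) ≤ κ ^ 2 * nb a b s s' m := by
    intro s hs s' hs' m hm
    have h1 := (hrat s hs s' hs').1 m (Finset.mem_Ico.1 hm).1
    have h2 : (0 : ℝ) ≤ na a b s s' m := Nat.cast_nonneg _
    have h3 : (na a b s s' m : ℝ) ≤ 64 * √(L : ℝ) * na a b s s' m := by nlinarith
    linarith
  have hABn : ∀ s ∈ S, ∀ s' ∈ S, ∀ m ∈ Ico 1 L, na a b s s' m ≤ nb a b s s' m := by
    intro s hs s' hs' m hm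
    have h1 := hAB s hs s' hs' m hm
    have h2 : (0 : ℝ) ≤ nb a b s s' m := Nat.cast_nonneg _
    have h3 : (na a b s s' m : ℝ) ≤ nb a b s s' m := by nlinarith
    exact_mod_cast h3
  -- large N
  have hlim : Filter.Tendsto (fun x : ℝ => C * x ^ (-δ)) Filter.atTop (nhds (C * 0)) :=
    (tendsto_rpow_neg_atTop hδ).const_mul C
  rw [mul_zero] at hlim
  have hev := hlim.eventually (gt_mem_nhds (show (0 : ℝ) < ε ^ 7 / 2 ^ 22 by positivity))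
  obtain ⟨X0, hX0⟩ := Filter.eventually_atTop.1 hev
  refine ⟨M, max ⌈X0⌉₊ (2 * M), hMp, fun N hN z => ?_⟩
  have hN1 : X0 ≤ N := (Nat.le_ceil X0).trans (by exact_mod_cast (le_max_left _ _).trans hN)
  have hN2 : 2 * M ≤ N := (le_max_right _ _).trans hN
  have hN3 : 1 ≤ N := by omega
  set T : ℕ → ℕ → ℕ → ℕ := fun s s' m => ⌊(na a b s s' m : ℝ) * N / κ⌋₊ with hTdef
  have hT : ∀ s ∈ S, ∀ s' ∈ S, ∀ m ∈ Ico 1 L, 1 ≤ T s s' m ∧ κ * (T s s' m : ℝ) ≤ (na a b s s' m : ℝ) * N ∧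
      (na a b s s' m : ℝ) * N ≤ 2 * κ * (T s s' m : ℝ) ∧ (nb a b s s' m : ℝ) ≤ κ * (T s s' m : ℝ) ∧
      (T s s' m : ℝ) ≤ κ * ((nb a b s s' m : ℝ) * N) := by
    intro s hs s' hs' m hm
    have h1 := hnbM s hs s' hs' m hm
    exact NHG_T (na a b s s' m) (nb a b s s' m) N κ (NHG_q ha hb (hS1 s hs) (hS1 s' hs') m).1 hκ hκ1 (hAB s hs s' hs' m hm)
      (by omega) (by omega)
  by_contra hcon
  push Not at hcon
  set E : Finset (ℕ × ℕ) := {t ∈ S ×ˢ S | ∃ m ∈ Ico 1 L, ∃ r < M,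
      ∑ v ∈ range (nb a b t.1 t.2 m * (M * N)) with v % M = r, WG H a b z t.1 t.2 m v < ε * ((nb a b t.1 t.2 m : ℝ) * N)} with hE
  have hB := NHG_WG H a b z
  have hMr : (1 : ℝ) ≤ M := by exact_mod_cast hMp
  have hNr : (1 : ℝ) ≤ N := by exact_mod_cast hN3
  have hYc : ((M * N : ℕ) : ℝ) = (M : ℝ) * N := by push_cast; ring
  have hSc : (1 : ℝ) ≤ #S := by
    have := Finset.card_pos.2 hSn
    exact_mod_cast this
  set n : ℝ := (#S : ℝ) * ((L : ℝ) * (M * N)) with hn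
  have hn1 : (N : ℝ) ≤ n := by
    have h1 : (N : ℝ) ≤ (M : ℝ) * N := by nlinarith
    have h2 : (M : ℝ) * N ≤ (L : ℝ) * (M * N) := by nlinarith
    have h3 : (L : ℝ) * (M * N) ≤ n := by
      rw [hn]
      have : 0 ≤ (L : ℝ) * (M * N) := by positivity
      nlinarith
    linarith
  have hn0 : 0 < n := by linarith
  -- the lower bound
  have hlow := hLOG a b L (M * N) M κ S T hMp hκ (fun s hs s' hs' m hm => by
    obtain ⟨t1, t2, t3, t4, t5⟩ := hT s hs s' hs' m hm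
    refine ⟨t1, ?_⟩
    rw [hYc]
    calc (na a b s s' m : ℝ) * ((M : ℝ) * N) = M * ((na a b s s' m : ℝ) * N) := by ring
      _ ≤ M * (2 * κ * (T s s' m : ℝ)) := mul_le_mul_of_nonneg_left t3 (by linarith)
      _ = 2 * κ * (M * T s s' m) := by ring) (WG H a b z) hB
  have havg : ∀ s ∈ S, ∀ s' ∈ S, (s, s') ∉ E → ∀ i < L, ∀ j < i, ∀ ρ < M, ∀ y < M * N,
      ε / 2 * N ≤ ∑ x ∈ range (M * N) with x % M = ρ, fg a b M κ T (WG H a b z) ((s, i), x) ((s', j), y) := by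
    intro s hs s' hs' hst i hi j hj ρ hρ y _
    have hm : i - j ∈ Ico 1 L := by
      rw [Finset.mem_Ico]
      omega
    obtain ⟨t1, t2, t3, t4, t5⟩ := hT s hs s' hs' _ hm
    have h0 : ∀ r < M, ε * ((nb a b s s' (i - j) : ℝ) * N) ≤
        ∑ v ∈ range (nb a b s s' (i - j) * (M * N)) with v % M = r, WG H a b z s s' (i - j) v := by
      intro r hr
      by_contra hlt
      push Not at hlt
      apply hst
      rw [hE, Finset.mem_filter]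
      exact ⟨Finset.mem_product.2 ⟨hs, hs'⟩, i - j, hm, r, hr, hlt⟩
    have h1 := hAVH (na a b s s' (i - j)) (nb a b s s' (i - j)) M N (T s s' (i - j)) κ ε (hABn s hs s' hs' _ hm)
      (NHG_q ha hb (hS1 s hs) (hS1 s' hs') _).2.1 hMp hκ hκ1 hε hε1 t1 t4 t5 (WG H a b z s s' (i - j)) (hB s s' (i - j)) h0 ρ hρ y
    have h2 : ε / 2 * (N : ℝ) ≤ (ε - 5 * κ) * N := mul_le_mul_of_nonneg_right hκ5 (by linarith)
    exact h2.trans h1
  have hk4 := hKLG L M N (ε / 2) κ S E hSn hL1 hMp hN3 (by positivity) (by linarith) hκ.le (by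
    rw [hκdef]
    have h1 : 1 / (L : ℝ) ≤ ε ^ 7 / 2 ^ 23 := by linarith
    have h2 : (ε / 2) ^ 2 = ε ^ 2 / 4 := by ring
    rw [h2]
    linarith) hcon.le (kg a b (PG M T (WG H a b z)))
    (fg a b M κ T (WG H a b z)) (fun p p' => (NHG_kg a b _ (NHG_PG M T _ hB) p p').1) hlow
    (fun p u y => by
      unfold fg
      simp only [Nat.mod_mod]) havg
  -- CNT
  have hcu := hCUG a b L M1 M (M * N) κ S T hMp (fun s hs s' hs' => ⟨hSq s hs s' hs', fun m hm => by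
    obtain ⟨t1, t2, t3, t4, t5⟩ := hT s hs s' hs' m hm
    refine ⟨hnbM1 s hs s' hs' m hm, ?_, t1, ?_⟩
    · calc M1 * nb a b s s' m = nb a b s s' m * M1 := Nat.mul_comm _ _
        _ ≤ M := Nat.le_of_dvd hMp (hnbM1 s hs s' hs' m hm)
        _ ≤ M * N := Nat.le_mul_of_pos_right _ hN3
    · rw [hYc]
      calc κ * ((M : ℝ) * T s s' m) = M * (κ * T s s' m) := by ring
        _ ≤ M * ((na a b s s' m : ℝ) * N) := mul_le_mul_of_nonneg_left t2 (by linarith)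
        _ = (na a b s s' m : ℝ) * (M * N) := by ring⟩) (WG H a b z) hB
  have hcnt := @hCNT ((ℕ × ℕ) × ℕ) (VG S L (M * N)) (kg a b (WG H a b z)) (kg a b (PG M T (WG H a b z)))
    ((2 * κ + 42 / √(L : ℝ)) * ((#S : ℝ) * ((L : ℝ) * ((M * N : ℕ) : ℝ))) ^ 2) (NHG_kg a b _ hB) (NHG_kg a b _ (NHG_PG M T _ hB)) hcu
  have hs := hS a b L (M * N) H z S ha hcop hL1 (Nat.mul_pos (by omega) (by omega)) hSn hS1 hsab hH1 hH6 hHa hHb hHs
  have hcard : (#(VG S L (M * N)) : ℝ) = n := by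
    unfold VG
    rw [Finset.card_product, Finset.card_product, Finset.card_range, Finset.card_range, hn]
    push_cast
    ring
  rw [hYc] at hcnt hs
  rw [hcard] at hcnt
  rw [← hn] at hcnt hs hk4
  have hfin := hX0 n (hN1.trans hn1)
  have hn4 : 0 < n ^ 4 := by positivity
  have e1 : C * n ^ 4 * n ^ (-δ) < n ^ 4 * (ε ^ 7 / 2 ^ 22) := by
    calc C * n ^ 4 * n ^ (-δ) = n ^ 4 * (C * n ^ (-δ)) := by ring
      _ < _ := mul_lt_mul_of_pos_left hfin hn4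
  have e2 : 6 * ((2 * κ + 42 / √(L : ℝ)) * n ^ 2) * n ^ 2 = n ^ 4 * (12 * κ + 252 / √(L : ℝ)) := by ring
  have e3 : ((ε / 2) ^ 7 / 2 ^ 13 - (1 / (L : ℝ) + 2 * κ)) * n ^ 4 = n ^ 4 * (ε ^ 7 / 2 ^ 20 - (1 / (L : ℝ) + 2 * κ)) := by ring
  rw [e2] at hcnt
  rw [e3] at hk4
  have e4 : n ^ 4 * (ε ^ 7 / 2 ^ 20 - (1 / (L : ℝ) + 2 * κ)) < n ^ 4 * (ε ^ 7 / 2 ^ 22 + (12 * κ + 252 / √(L : ℝ))) := by
    rw [mul_add]
    linarith
  have e5 := lt_of_mul_lt_mul_left e4 hn4.le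
  rw [hκdef] at e5
  linarith

theorem NHG (hK4G : K4G_stmt) (hCUG : CUG_stmt) (hCNT : OM.CNT_stmt) (hLOG : LOG_stmt) (hAVH : AVH_stmt) (hKLG : KLG_stmt) :
    NHG_stmt := by
  intro hQP ε hε K hK
  obtain ⟨L, δ, lam, hδ, hlam, h⟩ := NHG_le1 hK4G hCUG hCNT hLOG hAVH hKLG hQP (min ε 1) (lt_min hε one_pos) (min_le_right _ _) K hK
  refine ⟨L, δ, lam, hδ, hlam, fun a b ha hcop hab S hSn hS1 hSK H hH1 hH6 hHa hHb hHs => ?_⟩
  obtain ⟨M, N₀, hM, hN₀⟩ := h a b ha hcop hab S hSn hS1 hSK H hH1 hH6 hHa hHb hHs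
  refine ⟨M, N₀, hM, fun N hN z => (hN₀ N hN z).trans ?_⟩
  classical
  have hsub : ({t ∈ S ×ˢ S | ∃ m ∈ Ico 1 L, ∃ r < M,
      ∑ v ∈ range (nb a b t.1 t.2 m * (M * N)) with v % M = r, WG H a b z t.1 t.2 m v <
        (min ε 1) * ((nb a b t.1 t.2 m : ℝ) * N)} : Finset (ℕ × ℕ)) ⊆ {t ∈ S ×ˢ S | ∃ m ∈ Ico 1 L, ∃ r < M,
      ∑ v ∈ range (nb a b t.1 t.2 m * (M * N)) with v % M = r, WG H a b z t.1 t.2 m v < ε * ((nb a b t.1 t.2 m : ℝ) * N)} := by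
    intro t ht
    rw [Finset.mem_filter] at ht ⊢
    obtain ⟨h1, m, hm, r, hr, hlt⟩ := ht
    exact ⟨h1, m, hm, r, hr, hlt.trans_le (mul_le_mul_of_nonneg_right (min_le_left _ _) (by positivity))⟩
  have hc := Finset.card_le_card hsub
  have hc' : (#({t ∈ S ×ˢ S | ∃ m ∈ Ico 1 L, ∃ r < M,
      ∑ v ∈ range (nb a b t.1 t.2 m * (M * N)) with v % M = r, WG H a b z t.1 t.2 m v <
        (min ε 1) * ((nb a b t.1 t.2 m : ℝ) * N)} : Finset (ℕ × ℕ)) : ℝ) ≤ #({t ∈ S ×ˢ S | ∃ m ∈ Ico 1 L, ∃ r < M,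
      ∑ v ∈ range (nb a b t.1 t.2 m * (M * N)) with v % M = r, WG H a b z t.1 t.2 m v < ε * ((nb a b t.1 t.2 m : ℝ) * N)} : Finset (ℕ × ℕ)) := by
    exact_mod_cast hc
  exact hc'

end Pool.Agent.OV
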